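import Pool.Agent.N558.HG.IntA

/-!
# Project HG, task INT: a finite group forces the exponents to interlace (helper558)
-/

set_option autoImplicit false

open Matrix

namespace Pool.Agent.N558.HG

open Pool.Agent.Y985.OR Pool.Agent.Y985.OR.CDaux

variable {n : ℕ} {J : Mat n}

/-- the roots of unity -/
noncomputable def lam (N j : ℕ) : ℂ := Complex.exp (2 * Real.pi * Complex.I * ((j / N : ℝ) : ℂ))

lemma lam_eq (N j : ℕ) : lam N j = Complex.exp (2 * Real.pi * Complex.I / N) ^ j := by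
  unfold lam
  rw [← Complex.exp_nat_mul]
  congr 1
  push_cast
  ring

lemma lam_pow {N : ℕ} (hN : N ≠ 0) (j : ℕ) : lam N j ^ N = 1 := by
  rw [lam_eq, ← pow_mul, mul_comm j N, pow_mul, (Complex.isPrimitiveRoot_exp N hN).pow_eq_one, one_pow]

lemma lam_ne_zero (N j : ℕ) : lam N j ≠ 0 := Complex.exp_ne_zero _

lemma star_lam {N : ℕ} (hN : N ≠ 0) (j : ℕ) : star (lam N j) * lam N j = 1 := by
  have h1 : ‖lam N j‖ = 1 := Complex.norm_eq_one_of_pow_eq_one (lam_pow hN j) hN
  have h2 := Complex.normSq_eq_conj_mul_self (z := lam N j)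
  rw [Complex.normSq_eq_norm_sq, h1] at h2
  push_cast at h2
  rw [one_pow] at h2
  exact h2.symm

lemma lam_inj {N : ℕ} (hN : N ≠ 0) {i j : ℕ} (hi : i < N) (hj : j < N) (h : lam N i = lam N j) :
    i = j := by
  rw [lam_eq, lam_eq] at h
  exact (Complex.isPrimitiveRoot_exp N hN).pow_inj hi hj h

lemma sum_lam {N : ℕ} (hN : N ≠ 0) {k : ℕ} (hk : k < N) :
    ∑ j ∈ Finset.range N, ((lam N j)⁻¹) ^ k = if k = 0 then (N : ℂ) else 0 := by
  split_ifs with h
  · subst h
    simp
  · set r : ℂ := ((Complex.exp (2 * Real.pi * Complex.I / N))⁻¹) ^ k with hr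
    have h1 : ∀ j, ((lam N j)⁻¹) ^ k = r ^ j := by
      intro j
      rw [lam_eq, hr, ← inv_pow, ← pow_mul, ← pow_mul, mul_comm j k]
    simp only [h1]
    have hprim := (Complex.isPrimitiveRoot_exp N hN).inv
    have hr1 : r ≠ 1 := hprim.pow_ne_one_of_pos_of_lt h hk
    have hrN : r ^ N = 1 := by
      rw [hr, ← pow_mul, mul_comm k N, pow_mul, hprim.pow_eq_one, one_pow]
    rw [geom_sum_eq hr1, hrN, sub_self, zero_div]

/-- the component of `x` in the eigenspace -/
noncomputable def xj (T : Mat n) (x : Fin n → ℂ) (N j : ℕ) : Fin n → ℂ :=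
  (N : ℂ)⁻¹ • ∑ k ∈ Finset.range N, ((lam N j)⁻¹) ^ k • (T ^ k *ᵥ x)

lemma T_xj {T : Mat n} {N : ℕ} (hN : N ≠ 0) (hTN : T ^ N = 1) (x : Fin n → ℂ) (j : ℕ) :
    T *ᵥ xj T x N j = lam N j • xj T x N j := by
  unfold xj
  set f : ℕ → Fin n → ℂ := fun k => ((lam N j)⁻¹) ^ k • (T ^ k *ᵥ x) with hf
  have h1 : ∑ k ∈ Finset.range N, f (k + 1) = ∑ k ∈ Finset.range N, f k := by
    have h2 := Finset.sum_range_succ f N
    have h3 := Finset.sum_range_succ' f N
    have h4 : f N = f 0 := by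
      rw [hf]
      simp only [inv_pow, lam_pow hN, hTN, pow_zero, inv_one]
    rw [h2, h4] at h3
    exact (add_right_cancel h3).symm
  have h5 : T *ᵥ ∑ k ∈ Finset.range N, f k = lam N j • ∑ k ∈ Finset.range N, f (k + 1) := by
    rw [mulVec_sum, Finset.smul_sum]
    refine Finset.sum_congr rfl fun k _ => ?_
    rw [hf]
    simp only
    rw [mulVec_smul, mulVec_mulVec, ← pow_succ', smul_smul, pow_succ ((lam N j)⁻¹),
      mul_comm (lam N j), mul_assoc, inv_mul_cancel₀ (lam_ne_zero N j), mul_one]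
  rw [mulVec_smul, h5, h1, smul_comm]

lemma sum_xj (T : Mat n) {N : ℕ} (hN : N ≠ 0) (x : Fin n → ℂ) :
    ∑ j ∈ Finset.range N, xj T x N j = x := by
  unfold xj
  rw [← Finset.smul_sum, Finset.sum_comm]
  have h1 : ∀ k ∈ Finset.range N, ∑ j ∈ Finset.range N, ((lam N j)⁻¹) ^ k • (T ^ k *ᵥ x) =
      if k = 0 then (N : ℂ) • x else 0 := by
    intro k hk
    rw [← Finset.sum_smul, sum_lam hN (Finset.mem_range.1 hk)]
    split_ifs with h
    · subst h
      rw [pow_zero, one_mulVec]
    · rw [zero_smul]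
  rw [Finset.sum_congr rfl h1, Finset.sum_ite_eq' (Finset.range N) 0,
    if_pos (Finset.mem_range.2 (Nat.pos_of_ne_zero hN)), smul_smul,
    inv_mul_cancel₀ (by exact_mod_cast hN), one_smul]

/-- the equation for an eigenvalue of the product -/
lemma eigen_eq {S : Finset (Mat n)} {T : Mat n} {x : Fin n → ℂ} {N : ℕ} (hN : N ≠ 0)
    (hJ : Jᵀ = J) (hTN : T ^ N = 1) (h1S : (1 : Mat n) ∈ S) (hx : bl J x x ≠ 0)
    (hTi : ∀ u v, hh S (T *ᵥ u) (T *ᵥ v) = hh S u v)
    (hρi : ∀ u v, hh S (refl J x *ᵥ u) (refl J x *ᵥ v) = hh S u v)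
    {e : Fin n → ℂ} {m : ℂ} (he0 : e ≠ 0) (he : (refl J x * T) *ᵥ e = m • e)
    (hm : ∀ e : Fin n → ℂ, T *ᵥ e = m • e → e = 0) :
    ∑ j ∈ Finset.range N, (hn S (xj T x N j) : ℂ) * ((lam N j + m) / (lam N j - m)) = 0 := by
  have hφ : ∀ u, hh S x u = bl J x u / bl J x x * hh S x x := by
    intro u
    have h1 := hρi x u
    have h2 : refl J x *ᵥ x = (-1 : ℂ) • x := by
      rw [refl_mulVec hJ, mul_div_assoc, div_self hx, mul_one, two_smul]
      rw [neg_one_smul]
      abel
    rw [h2, hh_smul_left, refl_mulVec hJ, hh_sub_right, hh_smul_right] at h1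
    rw [star_neg, star_one] at h1
    linear_combination (-1 / 2 : ℂ) * h1
  set c : ℂ := 2 * bl J x (T *ᵥ e) / bl J x x with hc
  have hTe : T *ᵥ e - c • x = m • e := by
    rw [← he, ← mulVec_mulVec, refl_mulVec hJ]
  have hc0 : c ≠ 0 := by
    intro h
    rw [h, zero_smul, sub_zero] at hTe
    exact he0 (hm e hTe)
  set y : ℕ → Fin n → ℂ := fun j => xj T x N j with hy
  have horth : ∀ i ∈ Finset.range N, ∀ j ∈ Finset.range N, i ≠ j → hh S (y i) (y j) = 0 := by
    intro i hi j hj hij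
    have h1 := hTi (y i) (y j)
    rw [hy] at h1
    simp only at h1
    rw [T_xj hN hTN, T_xj hN hTN, hh_smul_left, hh_smul_right] at h1
    have h2 : (star (lam N i) * lam N j - 1) * hh S (y i) (y j) = 0 := by
      rw [hy]
      simp only
      linear_combination h1
    rcases mul_eq_zero.1 h2 with h3 | h3
    · exfalso
      apply hij
      apply lam_inj hN (Finset.mem_range.1 hi) (Finset.mem_range.1 hj)
      have h4 := star_lam hN i
      have h5 : star (lam N i) ≠ 0 := by
        intro h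
        rw [h, zero_mul] at h4
        exact zero_ne_one h4
      apply mul_left_cancel₀ h5
      linear_combination h4 - h3
    · exact h3
  have hxy : ∀ j ∈ Finset.range N, hh S (y j) x = (hn S (y j) : ℂ) := by
    intro j hj
    have h1 : hh S (y j) x = ∑ i ∈ Finset.range N, hh S (y j) (y i) := by
      rw [← hh_sum_right, hy, sum_xj T hN x]
    rw [h1, Finset.sum_eq_single_of_mem j hj fun i hi hij => horth j hj i hi (Ne.symm hij), hh_self]
  have hyT : ∀ j, hh S (y j) (T *ᵥ e) = lam N j * hh S (y j) e := by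
    intro j
    have h1 := hTi (y j) e
    rw [hy] at h1
    simp only at h1
    rw [T_xj hN hTN, hh_smul_left] at h1
    have h4 := star_lam hN j
    rw [hy]
    simp only
    rw [← h1]
    linear_combination (-hh S (xj T x N j) (T *ᵥ e)) * h4
  have hyc : ∀ j ∈ Finset.range N, (lam N j - m) * hh S (y j) e = c * (hn S (y j) : ℂ) := by
    intro j hj
    have h1 := congrArg (hh S (y j)) hTe
    rw [hh_sub_right, hh_smul_right, hh_smul_right, hyT, hxy j hj] at h1
    linear_combination h1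
  have hHsum : hh S x x = ∑ j ∈ Finset.range N, (hn S (y j) : ℂ) := by
    conv_lhs => rw [← sum_xj T hN x, hh_sum_left]
    refine Finset.sum_congr rfl fun j hj => ?_
    rw [sum_xj T hN x]
    exact hxy j hj
  have hxT : hh S x (T *ᵥ e) = ∑ j ∈ Finset.range N, lam N j * hh S (y j) e := by
    conv_lhs => rw [← sum_xj T hN x, hh_sum_left]
    exact Finset.sum_congr rfl fun j _ => hyT j
  have hxT2 : 2 * hh S x (T *ᵥ e) = c * hh S x x := by
    rw [hφ (T *ᵥ e), hc]
    ring
  have hsum0 : ∑ j ∈ Finset.range N, (lam N j + m) * hh S (y j) e = 0 := by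
    have h1 : ∀ j ∈ Finset.range N, (lam N j + m) * hh S (y j) e =
        2 * (lam N j * hh S (y j) e) - c * (hn S (y j) : ℂ) := by
      intro j hj
      rw [← hyc j hj]
      ring
    rw [Finset.sum_congr rfl h1, Finset.sum_sub_distrib, ← Finset.mul_sum, ← Finset.mul_sum,
      ← hxT, ← hHsum, hxT2, sub_self]
  have hfin : c * ∑ j ∈ Finset.range N, (hn S (y j) : ℂ) * ((lam N j + m) / (lam N j - m)) = 0 := by
    rw [Finset.mul_sum, ← hsum0]
    refine Finset.sum_congr rfl fun j hj => ?_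
    by_cases h0 : hn S (y j) = 0
    · have h1 : y j = 0 := eq_zero_of_hn h1S h0
      rw [h0, h1, hh_zero_left]
      push_cast
      ring
    · have h1 : lam N j ≠ m := by
        intro h
        apply h0
        have h2 : y j = 0 := hm _ (by rw [← h]; exact T_xj hN hTN x j)
        rw [h2]
        unfold hn
        simp
      have h2 : lam N j - m ≠ 0 := sub_ne_zero.2 h1
      have h3 := hyc j hj
      field_simp
      linear_combination (-(lam N j + m)) * h3
  rcases mul_eq_zero.1 hfin with h | h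
  · exact absurd h hc0
  · exact h

theorem int_main (n : ℕ) (J T Ti : Mat n) (x e1 e2 : Fin n → ℂ) (y1 y2 : ℝ) (hJ : Jᵀ = J)
    (hT1 : T * Ti = 1) (hx : bl J x x ≠ 0) (hy : y1 < y2) (he1 : e1 ≠ 0) (he2 : e2 ≠ 0)
    (hE1 : (refl J x * T) *ᵥ e1 = Complex.exp (2 * Real.pi * Complex.I * y1) • e1)
    (hE2 : (refl J x * T) *ᵥ e2 = Complex.exp (2 * Real.pi * Complex.I * y2) • e2)
    (hno : ∀ t : ℝ, y1 ≤ t → t ≤ y2 → ∀ e : Fin n → ℂ,
      T *ᵥ e = Complex.exp (2 * Real.pi * Complex.I * t) • e → e = 0) :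
    (Submonoid.closure {T, refl J x} : Set (Mat n)).Infinite := by
  classical
  intro hfin
  set G : Submonoid (Mat n) := Submonoid.closure {T, refl J x} with hG
  set ρ : Mat n := refl J x with hρ
  have hTG : T ∈ G := Submonoid.subset_closure (Or.inl rfl)
  have hρG : ρ ∈ G := Submonoid.subset_closure (Or.inr rfl)
  have hT2 : Ti * T = 1 := mul_eq_one_comm.1 hT1
  -- the order of `T`
  obtain ⟨a, b, hab, hTab⟩ := Set.Finite.exists_lt_map_eq_of_forall_mem
    (t := (G : Set (Mat n))) (f := fun k : ℕ => T ^ k) (fun k => pow_mem hTG k) hfin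
  have hTia : Ti ^ a * T ^ a = 1 := by
    rw [← (show Commute Ti T by unfold Commute SemiconjBy; rw [hT1, hT2]).mul_pow, hT2, one_pow]
  set N : ℕ := b - a with hN'
  have hN : N ≠ 0 := by omega
  have hTN : T ^ N = 1 := by
    have h1 : T ^ b = T ^ a * T ^ N := by rw [← pow_add, show a + N = b by omega]
    have h2 : T ^ a = T ^ b := hTab
    calc T ^ N = Ti ^ a * T ^ a * T ^ N := by rw [hTia, one_mul]
      _ = Ti ^ a * T ^ b := by rw [mul_assoc, ← h1]
      _ = 1 := by rw [← h2, hTia]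
  have hTiG : T ^ (N - 1) ∈ G := pow_mem hTG _
  have hTT1 : T * T ^ (N - 1) = 1 := by rw [← pow_succ', show N - 1 + 1 = N by omega, hTN]
  have hTT2 : T ^ (N - 1) * T = 1 := by rw [← pow_succ, show N - 1 + 1 = N by omega, hTN]
  have hρρ : ρ * ρ = 1 := refl_refl hJ hx
  set S : Finset (Mat n) := hfin.toFinset with hS
  have hmem : ∀ g, g ∈ S ↔ g ∈ G := fun g => hfin.mem_toFinset
  have h1S : (1 : Mat n) ∈ S := (hmem 1).2 (one_mem G)
  have hTinv : ∀ u v, hh S (T *ᵥ u) (T *ᵥ v) = hh S u v :=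
    hh_inv (fun g hg => (hmem _).2 (mul_mem ((hmem g).1 hg) hTG))
      (fun g hg => (hmem _).2 (mul_mem ((hmem g).1 hg) hTiG)) hTT1 hTT2
  have hρinv : ∀ u v, hh S (ρ *ᵥ u) (ρ *ᵥ v) = hh S u v :=
    hh_inv (fun g hg => (hmem _).2 (mul_mem ((hmem g).1 hg) hρG))
      (fun g hg => (hmem _).2 (mul_mem ((hmem g).1 hg) hρG)) hρρ hρρ
  set m1 : ℂ := Complex.exp (2 * Real.pi * Complex.I * y1) with hm1
  set m2 : ℂ := Complex.exp (2 * Real.pi * Complex.I * y2) with hm2
  have hq1 := eigen_eq hN hJ hTN h1S hx hTinv hρinv he1 hE1 (hno y1 le_rfl hy.le)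
  have hq2 := eigen_eq hN hJ hTN h1S hx hTinv hρinv he2 hE2 (hno y2 hy.le le_rfl)
  set ν : ℕ → ℝ := fun j => hn S (xj T x N j) with hν
  set s : ℕ → ℝ := fun j => Real.sin (Real.pi * ((j / N : ℝ) - y1)) *
    Real.sin (Real.pi * ((j / N : ℝ) - y2)) with hs
  -- the positions of the eigenvalues
  have hpos : ∀ j, ν j ≠ 0 → y2 - y1 < 1 ∧ 0 < s j := by
    intro j hj
    refine sin_mul_sin_pos hy fun k hk => hj ?_
    have h1 : xj T x N j = 0 := by
      refine hno ((j / N : ℝ) + k) hk.1 hk.2 _ ?_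
      rw [T_xj hN hTN]
      congr 1
      unfold lam
      rw [Complex.ofReal_add, mul_add, Complex.exp_add]
      have h2 : Complex.exp (2 * Real.pi * Complex.I * ((k : ℝ) : ℂ)) = 1 := by
        rw [Complex.exp_eq_one_iff]
        exact ⟨k, by push_cast; ring⟩
      rw [h2, mul_one]
    rw [hν]
    simp only
    rw [h1]
    unfold hn
    simp
  -- a nonzero component
  have hx0 : x ≠ 0 := by
    rintro rfl
    apply hx
    unfold bl
    rw [zero_dotProduct]
  obtain ⟨j0, hj0, hj0x⟩ : ∃ j ∈ Finset.range N, xj T x N j ≠ 0 := by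
    by_contra hcon
    push Not at hcon
    apply hx0
    rw [← sum_xj T hN x]
    exact Finset.sum_eq_zero hcon
  have hν0 : ∀ j, 0 ≤ ν j := fun j => hn_nonneg _
  have hνj0 : 0 < ν j0 := lt_of_le_of_ne (hν0 j0) fun h => hj0x (eq_zero_of_hn h1S h.symm)
  have hlt1 := (hpos j0 hνj0.ne').1
  set M : ℂ := Complex.exp (Real.pi * Complex.I * (y1 + y2)) with hM
  have hM0 : M ≠ 0 := Complex.exp_ne_zero _
  have hm12 : m2 - m1 ≠ 0 := by
    rw [hm1, hm2, exp_sub_exp]
    refine mul_ne_zero (Complex.exp_ne_zero _) (mul_ne_zero (mul_ne_zero two_ne_zero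
      Complex.I_ne_zero) ?_)
    rw [Complex.ofReal_ne_zero]
    apply ne_of_gt
    apply Real.sin_pos_of_pos_of_lt_pi
    · have : 0 < y2 - y1 := by linarith
      positivity
    · nlinarith [Real.pi_pos]
  have hterm : ∀ j ∈ Finset.range N, (ν j : ℂ) * ((lam N j + m2) / (lam N j - m2)) -
      (ν j : ℂ) * ((lam N j + m1) / (lam N j - m1)) =
      (-(m2 - m1) / (2 * M)) * ((ν j / s j : ℝ) : ℂ) := by
    intro j _
    by_cases h0 : ν j = 0
    · rw [h0]
      simp
    · have hsj := (hpos j h0).2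
      have hsj' : (s j : ℂ) ≠ 0 := Complex.ofReal_ne_zero.2 hsj.ne'
      have h1 : lam N j - m1 = Complex.exp (Real.pi * Complex.I * ((j / N : ℝ) + y1)) *
          (2 * Complex.I * (Real.sin (Real.pi * ((j / N : ℝ) - y1)) : ℂ)) := exp_sub_exp _ _
      have h2 : lam N j - m2 = Complex.exp (Real.pi * Complex.I * ((j / N : ℝ) + y2)) *
          (2 * Complex.I * (Real.sin (Real.pi * ((j / N : ℝ) - y2)) : ℂ)) := exp_sub_exp _ _
      have h3 : Complex.exp (Real.pi * Complex.I * ((j / N : ℝ) + y1)) *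
          Complex.exp (Real.pi * Complex.I * ((j / N : ℝ) + y2)) = lam N j * M := by
        unfold lam
        rw [hM, ← Complex.exp_add, ← Complex.exp_add]
        congr 1
        ring
      have h4 : (lam N j - m1) * (lam N j - m2) = -4 * (s j : ℂ) * (lam N j * M) := by
        rw [h1, h2, ← h3]
        have hsc : (s j : ℂ) = (Real.sin (Real.pi * ((j / N : ℝ) - y1)) : ℂ) *
            (Real.sin (Real.pi * ((j / N : ℝ) - y2)) : ℂ) := by
          rw [hs]
          exact Complex.ofReal_mul _ _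
        rw [hsc]
        generalize (Real.sin (Real.pi * ((j / N : ℝ) - y1)) : ℂ) = s1
        generalize (Real.sin (Real.pi * ((j / N : ℝ) - y2)) : ℂ) = s2
        generalize Complex.exp (Real.pi * Complex.I * ((j / N : ℝ) + y1)) = E1
        generalize Complex.exp (Real.pi * Complex.I * ((j / N : ℝ) + y2)) = E2
        linear_combination (4 * E1 * E2 * s1 * s2) * Complex.I_sq
      have hl := lam_ne_zero N j
      have h5 : (lam N j - m1) * (lam N j - m2) ≠ 0 := by
        rw [h4]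
        exact mul_ne_zero (mul_ne_zero (by norm_num) hsj') (mul_ne_zero hl hM0)
      have h6 : lam N j - m1 ≠ 0 := left_ne_zero_of_mul h5
      have h7 : lam N j - m2 ≠ 0 := right_ne_zero_of_mul h5
      have h8 : (lam N j + m2) / (lam N j - m2) - (lam N j + m1) / (lam N j - m1) =
          2 * lam N j * (m2 - m1) / ((lam N j - m1) * (lam N j - m2)) := by
        field_simp
        ring
      rw [← mul_sub, h8, h4]
      push_cast
      field_simp
      ring
  have hsum : (-(m2 - m1) / (2 * M)) * ((∑ j ∈ Finset.range N, ν j / s j : ℝ) : ℂ) = 0 := by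
    rw [Complex.ofReal_sum, Finset.mul_sum, ← Finset.sum_congr rfl hterm,
      Finset.sum_sub_distrib]
    rw [hν]
    simp only
    rw [hq1, hq2, sub_zero]
  have hsum2 : (∑ j ∈ Finset.range N, ν j / s j : ℝ) = 0 := by
    rcases mul_eq_zero.1 hsum with h | h
    · exfalso
      rcases div_eq_zero_iff.1 h with h1 | h1
      · exact hm12 (neg_eq_zero.1 h1)
      · exact (mul_ne_zero two_ne_zero hM0) h1
    · exact_mod_cast h
  have hsum3 : 0 < ∑ j ∈ Finset.range N, ν j / s j := by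
    refine Finset.sum_pos' (fun j _ => ?_) ⟨j0, hj0, div_pos hνj0 (hpos j0 hνj0.ne').2⟩
    by_cases h0 : ν j = 0
    · rw [h0, zero_div]
    · exact div_nonneg (hν0 j) (hpos j h0).2.le
  exact hsum3.ne' hsum2

end Pool.Agent.N558.HG
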