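import Pool.Agent.N207.HG.Stm2
import Pool.Agent.N558.HG.IntB

/-!
# Project HG, task INT: a finite group forces the exponents to interlace (helper558)
-/

set_option autoImplicit false

namespace Pool.Agent.N558.HG

theorem int : Pool.Agent.N207.HG.S_INT :=
  fun n J T Ti x e1 e2 y1 y2 hJ _ _ hT1 hx hy he1 he2 hE1 hE2 hno =>
    int_main n J T Ti x e1 e2 y1 y2 hJ hT1 hx hy he1 he2 hE1 hE2 hno

end Pool.Agent.N558.HG
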