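import Pool.Agent.N558.HG.FinA

/-!
# Project HG, task FIN: the group generated by an isometry of finite order and a reflection is finite
if the products of two of its reflections have finite order (helper558)
-/

set_option autoImplicit false

open Matrix

namespace Pool.Agent.N558.HG

open Pool.Agent.Y985.OR Pool.Agent.Y985.OR.CDaux

variable {n : ℕ} {J : Mat n}

lemma pr_one : Pr J (1 : Mat n) := fun x y => by rw [one_mulVec, one_mulVec]

lemma pr_pow {T : Mat n} (hT : Pr J T) (k : ℕ) : Pr J (T ^ k) := by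
  induction k with
  | zero => rw [pow_zero]; exact pr_one
  | succ k ih => rw [pow_succ]; exact pr_mul ih hT

/-- nondegeneracy -/
lemma nondeg (hdet : J.det ≠ 0) {z : Fin n → ℂ} (h : ∀ w, bl J w z = 0) : z = 0 := by
  have h1 : J *ᵥ z = 0 := by
    funext i
    have := h (Pi.single i 1)
    unfold bl at this
    rw [single_one_dotProduct] at this
    exact this
  by_contra hz
  exact hdet ((Matrix.exists_mulVec_eq_zero_iff).1 ⟨z, hz, h1⟩)

/-- The orbit of `x` under `T` has trivial orthogonal complement. -/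
lemma perp {T : Mat n} {x : Fin n → ℂ} {N : ℕ} (hN : 0 < N) (hT : Pr J T) (hTN : T ^ N = 1)
    (he : ∀ (e : Fin n → ℂ) (m : ℂ), e ≠ 0 → T *ᵥ e = m • e → bl J x e ≠ 0)
    {w : Fin n → ℂ} (hw : ∀ k : ℕ, bl J (T ^ k *ᵥ x) w = 0) : w = 0 := by
  let P : Submodule ℂ (Fin n → ℂ) :=
    { carrier := {w | ∀ k : ℕ, bl J (T ^ k *ᵥ x) w = 0}
      add_mem' := fun {a b} ha hb k => by rw [bl_add_right, ha k, hb k, add_zero]
      zero_mem' := fun k => by unfold bl; rw [mulVec_zero, dotProduct_zero]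
      smul_mem' := fun c a ha k => by rw [bl_smul_right, ha k, mul_zero] }
  have hTP : ∀ w ∈ P, T.mulVecLin w ∈ P := by
    intro w hw k
    show bl J (T ^ k *ᵥ x) (T *ᵥ w) = 0
    have h1 : T ^ k = T * T ^ (k + (N - 1)) := by
      rw [← pow_succ', show k + (N - 1) + 1 = k + N by omega, pow_add, hTN, mul_one]
    rw [h1, ← mulVec_mulVec, hT]
    exact hw _
  by_contra hw0
  have hnt : Nontrivial P := ⟨⟨⟨w, hw⟩, 0, fun h => hw0 (congrArg Subtype.val h)⟩⟩
  obtain ⟨μ, hμ⟩ := Module.End.exists_eigenvalue (T.mulVecLin.restrict hTP)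
  obtain ⟨e, he1⟩ := hμ.exists_hasEigenvector
  have he2 := he1.apply_eq_smul
  have he3 := he1.2
  have he4 : T *ᵥ (e : Fin n → ℂ) = μ • (e : Fin n → ℂ) := congrArg Subtype.val he2
  have he5 : (e : Fin n → ℂ) ≠ 0 := fun h => he3 (Subtype.ext h)
  refine he _ μ he5 he4 ?_
  have := e.2 0
  rw [pow_zero, one_mulVec] at this
  exact this

theorem fin_main (n : ℕ) (J T : Mat n) (x : Fin n → ℂ) (N : ℕ) (hJ : Jᵀ = J) (hdet : J.det ≠ 0)
    (hTJ : Tᵀ * J * T = J) (hN : 0 < N) (hTN : T ^ N = 1) (hx : bl J x x ≠ 0)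
    (he : ∀ (e : Fin n → ℂ) (m : ℂ), e ≠ 0 → T *ᵥ e = m • e → bl J x e ≠ 0)
    (hinf : (Submonoid.closure {T, refl J x} : Set (Mat n)).Infinite) :
    ∃ u v, bl J u u ≠ 0 ∧ bl J v v ≠ 0 ∧ refl J u ∈ Submonoid.closure {T, refl J x} ∧
      refl J v ∈ Submonoid.closure {T, refl J x} ∧
      ∀ m : ℕ, 0 < m → (refl J u * refl J v) ^ m ≠ 1 := by
  classical
  by_contra hcon
  push Not at hcon
  set G : Submonoid (Mat n) := Submonoid.closure {T, refl J x} with hG
  set ρ : Mat n := refl J x with hρ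
  set q : ℂ := bl J x x with hq
  have hT : Pr J T := pr_of_isO hTJ
  have hρi : Pr J ρ := pr_refl hJ hx
  have hTG : T ∈ G := Submonoid.subset_closure (by simp)
  have hρG : ρ ∈ G := Submonoid.subset_closure (Or.inr rfl)
  have hTT : T * T ^ (N - 1) = 1 := by
    rw [← pow_succ', show N - 1 + 1 = N by omega, hTN]
  have hTiG : T ^ (N - 1) ∈ G := pow_mem hTG _
  -- all elements of `G` are isometries and carry reflections to reflections
  have hGp : ∀ g ∈ G, Pr J g ∧ ∀ y, refl J y ∈ G → refl J (g *ᵥ y) ∈ G := by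
    intro g hg
    induction hg using Submonoid.closure_induction with
    | mem g hg =>
      rcases hg with rfl | hg
      · exact ⟨hT, fun y hy => by
          rw [refl_iso hJ hT hTT]
          exact mul_mem (mul_mem hTG hy) hTiG⟩
      · rw [Set.mem_singleton_iff] at hg
        rw [hg]
        exact ⟨hρi, fun y hy => by
          rw [refl_iso hJ hρi (refl_refl hJ hx)]
          exact mul_mem (mul_mem hρG hy) hρG⟩
    | one => exact ⟨pr_one, fun y hy => by rw [one_mulVec]; exact hy⟩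
    | mul g h _ _ hg hh =>
      exact ⟨pr_mul hg.1 hh.1, fun y hy => by
        rw [← mulVec_mulVec]
        exact hg.2 _ (hh.2 y hy)⟩
  -- the values `c`
  have hroot : ∀ g ∈ G, ∃ ξ ξ' : ℂ, ∃ M : ℕ, M ≠ 0 ∧ ξ * ξ' = 1 ∧ ξ ^ M = 1 ∧
      4 * (bl J x (g *ᵥ x) / q) ^ 2 - 2 = ξ + ξ' := by
    intro g hg
    have h1 : bl J (g *ᵥ x) (g *ᵥ x) = q := (hGp g hg).1 x x
    obtain ⟨m, hm, hm2⟩ := hcon x (g *ᵥ x) hx (by rw [h1]; exact hx) hρG ((hGp g hg).2 x hρG)
    obtain ⟨ξ, ξ', h2, h3, h4⟩ := root_of_order hJ hx rfl h1 hm2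
    exact ⟨ξ, ξ', 2 * m, by omega, h2, h3, h4⟩
  -- the field
  let c : Fin N → ℂ := fun k => bl J x (T ^ (k : ℕ) *ᵥ x) / q
  let F : IntermediateField ℚ ℂ := IntermediateField.adjoin ℚ (Set.range c)
  have hcint : ∀ z ∈ Set.range c, IsIntegral ℚ z := by
    rintro _ ⟨k, rfl⟩
    obtain ⟨ξ, ξ', M, hM, h1, h2, h3⟩ := hroot (T ^ (k : ℕ)) (pow_mem hTG _)
    have hξ' : ξ' ^ M = 1 := by
      have := congrArg (· ^ M) h1
      simp only [mul_pow, h2, one_mul, one_pow] at this
      exact this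
    have h4 : IsIntegral ℚ (ξ + ξ') :=
      ((integral_root hM h2).tower_top).add ((integral_root hM hξ').tower_top)
    have h5 : IsIntegral ℚ (c k ^ 2) := by
      have e1 : c k ^ 2 = algebraMap ℚ ℂ (1 / 4) * ((ξ + ξ') + algebraMap ℚ ℂ 2) := by
        rw [← h3]
        simp only [map_div₀, map_one, map_ofNat]
        ring
      rw [e1]
      exact isIntegral_algebraMap.mul (h4.add isIntegral_algebraMap)
    exact IsIntegral.of_pow two_pos h5
  have hfd : FiniteDimensional ℚ F := IntermediateField.finiteDimensional_adjoin hcint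
  have hNF : NumberField F := { to_charZero := inferInstance, to_finiteDimensional := hfd }
  have hmodN : ∀ k : ℕ, T ^ k = T ^ (k % N) := by
    intro k
    conv_lhs => rw [← Nat.mod_add_div k N, pow_add, pow_mul, hTN, one_pow, mul_one]
  have hcF : ∀ k : ℕ, bl J x (T ^ k *ᵥ x) / q ∈ F := by
    intro k
    rw [hmodN k]
    exact IntermediateField.subset_adjoin ℚ _ ⟨⟨k % N, Nat.mod_lt _ hN⟩, rfl⟩
  let M : Submodule F (Fin n → ℂ) := Submodule.span F (Set.range fun k : ℕ => T ^ k *ᵥ x)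
  have hsmul : ∀ (f : F) (w : Fin n → ℂ), f • w = (f : ℂ) • w := fun f w => rfl
  have hcM : ∀ w ∈ M, bl J x w / q ∈ F := by
    intro w hw
    induction hw using Submodule.span_induction with
    | mem w hw => obtain ⟨k, rfl⟩ := hw; exact hcF k
    | zero =>
      have : bl J x 0 = 0 := by unfold bl; rw [mulVec_zero, dotProduct_zero]
      rw [this, zero_div]
      exact zero_mem F
    | add a b _ _ ha hb => rw [bl_add_right, add_div]; exact add_mem ha hb
    | smul f a _ ha => rw [hsmul, bl_smul_right, mul_div_assoc]; exact mul_mem f.2 ha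
  have hTM : ∀ w ∈ M, T *ᵥ w ∈ M := by
    intro w hw
    induction hw using Submodule.span_induction with
    | mem w hw =>
      obtain ⟨k, rfl⟩ := hw
      refine Submodule.subset_span ⟨k + 1, ?_⟩
      show T ^ (k + 1) *ᵥ x = T *ᵥ (T ^ k *ᵥ x)
      rw [mulVec_mulVec, pow_succ']
    | zero => rw [mulVec_zero]; exact zero_mem _
    | add a b _ _ ha hb => rw [mulVec_add]; exact add_mem ha hb
    | smul f a _ ha => rw [hsmul, mulVec_smul, ← hsmul]; exact Submodule.smul_mem _ _ ha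
  have hxM : x ∈ M := Submodule.subset_span ⟨0, by simp⟩
  have hρM : ∀ w ∈ M, ρ *ᵥ w ∈ M := by
    intro w hw
    rw [hρ, refl_mulVec hJ]
    refine sub_mem hw ?_
    have h1 : (2 * bl J x w / bl J x x) ∈ F := by
      rw [mul_div_assoc]
      exact mul_mem (by exact_mod_cast (natCast_mem F 2)) (hcM w hw)
    exact Submodule.smul_mem M (⟨_, h1⟩ : F) hxM
  have hGM : ∀ g ∈ G, ∀ w ∈ M, g *ᵥ w ∈ M := by
    intro g hg
    induction hg using Submonoid.closure_induction with
    | mem g hg =>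
      rcases hg with rfl | hg
      · exact hTM
      · rw [Set.mem_singleton_iff] at hg
        rw [hg]
        exact hρM
    | one => exact fun w hw => by rw [one_mulVec]; exact hw
    | mul g h _ _ hg hh => exact fun w hw => by rw [← mulVec_mulVec]; exact hg _ (hh w hw)
  -- finitely many values
  have hfinA : Set.Finite {t : F | IsIntegral ℤ t ∧ ∀ φ : F →+* ℂ, ‖φ t‖ ≤ 2} :=
    NumberField.Embeddings.finite_of_norm_le F ℂ 2
  let Cs : Set ℂ := {z | ∃ g ∈ G, z = bl J x (g *ᵥ x) / q}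
  have hCfin : Cs.Finite := by
    have h1 : Cs ⊆ (fun z : ℂ => 4 * z ^ 2 - 2) ⁻¹' ((algebraMap F ℂ) ''
        {t : F | IsIntegral ℤ t ∧ ∀ φ : F →+* ℂ, ‖φ t‖ ≤ 2}) := by
      rintro z ⟨g, hg, rfl⟩
      obtain ⟨ξ, ξ', M', hM', h2, h3, h4⟩ := hroot g hg
      have h5 : bl J x (g *ᵥ x) / q ∈ F := hcM _ (hGM g hg x hxM)
      have h6 : 4 * (bl J x (g *ᵥ x) / q) ^ 2 - 2 ∈ F := by
        refine sub_mem (mul_mem ?_ (pow_mem h5 2)) ?_
        · exact_mod_cast (natCast_mem F 4)
        · exact_mod_cast (natCast_mem F 2)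
      refine ⟨⟨_, h6⟩, ⟨?_, fun φ => ?_⟩, rfl⟩
      · exact integral_t (algebraMap F ℂ) h2 hM' h3 h4
      · exact embed_bound (algebraMap F ℂ) φ h2 hM' h3 h4
    refine Set.Finite.subset (Set.Finite.preimage' (hfinA.image _) ?_) h1
    intro b _
    by_cases hne : ((fun z : ℂ => 4 * z ^ 2 - 2) ⁻¹' {b}).Nonempty
    · obtain ⟨z0, hz0⟩ := hne
      refine Set.Finite.subset (Set.toFinite {z0, -z0}) fun z hz => ?_
      have h2 : z ^ 2 = z0 ^ 2 := by
        have h3 : 4 * z ^ 2 - 2 = b := hz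
        have h4 : 4 * z0 ^ 2 - 2 = b := hz0
        linear_combination (1 / 4 : ℂ) * h3 - (1 / 4 : ℂ) * h4
      rcases sq_eq_sq_iff_eq_or_eq_neg.1 h2 with h3 | h3
      · left; exact h3
      · right; exact h3
    · rw [Set.not_nonempty_iff_eq_empty.1 hne]
      exact Set.finite_empty
  -- the orbit is finite
  let Φ : Set (Fin n → ℂ) := {w | ∃ g ∈ G, w = g *ᵥ x}
  have hperp : ∀ w : Fin n → ℂ, (∀ k : Fin N, bl J (T ^ (k : ℕ) *ᵥ x) w = 0) → w = 0 := by
    intro w hw
    refine perp hN hT hTN he fun k => ?_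
    rw [hmodN k]
    exact hw ⟨k % N, Nat.mod_lt _ hN⟩
  have hΦ : Φ.Finite := by
    refine Set.Finite.of_injOn (f := fun w (k : Fin N) => bl J (T ^ (k : ℕ) *ᵥ x) w / q)
      (t := Set.pi Set.univ fun _ => Cs) ?_ ?_ (Set.Finite.pi fun _ => hCfin)
    · rintro w ⟨g, hg, rfl⟩ k _
      refine ⟨(T ^ (N - 1)) ^ (k : ℕ) * g, mul_mem (pow_mem hTiG _) hg, ?_⟩
      have h1 : T ^ (k : ℕ) * (T ^ (N - 1)) ^ (k : ℕ) = 1 := by
        rw [← pow_mul, ← pow_add]
        have : (k : ℕ) + (N - 1) * k = N * k := by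
          obtain ⟨N', rfl⟩ : ∃ N', N = N' + 1 := ⟨N - 1, by omega⟩
          simp only [Nat.add_sub_cancel]
          ring
        rw [this, pow_mul, hTN, one_pow]
      have h2 : g *ᵥ x = T ^ (k : ℕ) *ᵥ (((T ^ (N - 1)) ^ (k : ℕ) * g) *ᵥ x) := by
        rw [mulVec_mulVec, ← mul_assoc, h1, one_mul]
      show bl J (T ^ (k : ℕ) *ᵥ x) (g *ᵥ x) / q = _
      rw [h2, pr_pow hT]
    · rintro w _ w' _ h
      have h1 : w - w' = 0 := by
        refine hperp _ fun k => ?_
        have h2 := congrFun h k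
        simp only at h2
        rw [bl_sub_right]
        have h3 : bl J (T ^ (k : ℕ) *ᵥ x) w = bl J (T ^ (k : ℕ) *ᵥ x) w' := by
          field_simp at h2
          exact h2
        rw [h3, sub_self]
      exact sub_eq_zero.1 h1
  -- the group is finite
  refine hinf ?_
  refine Set.Finite.of_injOn (f := fun g (k : Fin N) => g *ᵥ (T ^ (k : ℕ) *ᵥ x))
    (t := Set.pi Set.univ fun _ => Φ) ?_ ?_ (Set.Finite.pi fun _ => hΦ)
  · rintro g hg k _
    exact ⟨g * T ^ (k : ℕ), mul_mem hg (pow_mem hTG _), by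
      show g *ᵥ (T ^ (k : ℕ) *ᵥ x) = _
      rw [mulVec_mulVec]⟩
  · rintro g hg h hh hgh
    have hinj : Function.Injective h.mulVecLin := by
      rw [← LinearMap.ker_eq_bot, LinearMap.ker_eq_bot']
      intro y hy
      refine nondeg hdet fun w => ?_
      have h1 := (hGp h hh).1 w y
      have h2 : h *ᵥ y = 0 := hy
      rw [← h1, h2]
      unfold bl
      rw [mulVec_zero, dotProduct_zero]
    have hsurj := LinearMap.injective_iff_surjective.1 hinj
    apply Matrix.toLin'.injective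
    apply LinearMap.ext
    intro w
    rw [toLin'_apply, toLin'_apply]
    obtain ⟨z', hz'⟩ := hsurj (g *ᵥ w - h *ᵥ w)
    have hz2 : h *ᵥ z' = g *ᵥ w - h *ᵥ w := hz'
    have h1 : z' = 0 := by
      refine hperp _ fun k => ?_
      have h3 : g *ᵥ (T ^ (k : ℕ) *ᵥ x) = h *ᵥ (T ^ (k : ℕ) *ᵥ x) := congrFun hgh k
      rw [← (hGp h hh).1, hz2, bl_sub_right, (hGp h hh).1, ← h3, (hGp g hg).1, sub_self]
    rw [h1, mulVec_zero] at hz2
    exact (sub_eq_zero.1 hz2.symm)

end Pool.Agent.N558.HG
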