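import Pool.Agent.N207.HG.Stm
import Pool.Agent.N558.HG.FinB

/-!
# Project HG, task FIN (helper558)
-/

set_option autoImplicit false

namespace Pool.Agent.N558.HG

open Pool.Agent.N207.HG

theorem fin : S_FIN := fun n J T x N hJ hdet hTJ hN hTN hx he hinf =>
  fin_main n J T x N hJ hdet hTJ hN hTN hx he hinf

end Pool.Agent.N558.HG
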