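import Pool.Agent.Y985.OR.CD

/-!
# Project HG, task FIN: auxiliary results on reflections and roots of unity (helper558)
-/

set_option autoImplicit false

open Matrix

namespace Pool.Agent.N558.HG

open Pool.Agent.Y985.OR Pool.Agent.Y985.OR.CDaux

variable {n : ℕ} {J : Mat n}

/-- Conjugation of a reflection by an isometry. -/
lemma refl_iso (hJ : Jᵀ = J) {T Ti : Mat n} (hT : Pr J T) (hTi : T * Ti = 1) (y : Fin n → ℂ) :
    refl J (T *ᵥ y) = T * refl J y * Ti := by
  apply Matrix.toLin'.injective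
  apply LinearMap.ext
  intro z
  have h1 : T *ᵥ (Ti *ᵥ z) = z := by rw [mulVec_mulVec, hTi, one_mulVec]
  have h2 : bl J (T *ᵥ y) z = bl J y (Ti *ᵥ z) := by
    conv_lhs => rw [← h1]
    exact hT _ _
  rw [toLin'_apply, toLin'_apply, ← mulVec_mulVec, ← mulVec_mulVec, refl_mulVec hJ,
    refl_mulVec hJ, mulVec_sub, mulVec_smul, h1, h2, hT]

lemma exists_quad (t : ℂ) : ∃ ξ : ℂ, ξ ^ 2 - t * ξ + 1 = 0 := by
  obtain ⟨s, hs⟩ := IsAlgClosed.exists_pow_nat_eq (t ^ 2 - 4) (n := 2) (by norm_num)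
  refine ⟨(t + s) / 2, ?_⟩
  linear_combination (1 / 4 : ℂ) * hs

/-- The product of two reflections of finite order. -/
lemma root_of_order (hJ : Jᵀ = J) {u v : Fin n → ℂ} {q : ℂ} (hq : q ≠ 0) (hu : bl J u u = q)
    (hv : bl J v v = q) {m : ℕ} (h : (refl J u * refl J v) ^ m = 1) :
    ∃ ξ ξ' : ℂ, ξ * ξ' = 1 ∧ ξ ^ (2 * m) = 1 ∧ 4 * (bl J u v / q) ^ 2 - 2 = ξ + ξ' := by
  set c : ℂ := bl J u v / q with hc
  have hcq : bl J u v = c * q := by rw [hc, div_mul_cancel₀ _ hq]
  obtain ⟨ξ, hξ⟩ := exists_quad (4 * c ^ 2 - 2)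
  have hξ0 : ξ ≠ 0 := by
    rintro rfl
    norm_num at hξ
  refine ⟨ξ, ξ⁻¹, mul_inv_cancel₀ hξ0, ?_, ?_⟩
  swap
  · field_simp
    linear_combination -hξ
  have rv_u : refl J v *ᵥ u = u - (2 * c) • v := by
    rw [refl_mulVec hJ, bl_comm hJ v u, hv, hcq]
    congr 2
    field_simp
  have rv_v : refl J v *ᵥ v = -v := by
    rw [refl_mulVec hJ, hv, mul_div_assoc, div_self hq, mul_one, two_smul]
    abel
  have ru_u : refl J u *ᵥ u = -u := by
    rw [refl_mulVec hJ, hu, mul_div_assoc, div_self hq, mul_one, two_smul]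
    abel
  have ru_v : refl J u *ᵥ v = v - (2 * c) • u := by
    rw [refl_mulVec hJ, hu, hcq]
    congr 2
    field_simp
  set y : Fin n → ℂ := (ξ + 1) • u - (2 * c) • v with hy
  have hry : (refl J u * refl J v) *ᵥ y = ξ • y := by
    rw [← mulVec_mulVec, hy, mulVec_sub, mulVec_smul, mulVec_smul, rv_u, rv_v, mulVec_sub,
      mulVec_smul, mulVec_smul, mulVec_sub, mulVec_smul, mulVec_neg, ru_u, ru_v]
    funext i
    simp only [Pi.sub_apply, Pi.smul_apply, Pi.neg_apply, smul_eq_mul]
    linear_combination (-u i) * hξ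
  have hpow : ∀ k : ℕ, ((refl J u * refl J v) ^ k) *ᵥ y = ξ ^ k • y := by
    intro k
    induction k with
    | zero => rw [pow_zero, pow_zero, one_mulVec, one_smul]
    | succ k ih => rw [pow_succ', ← mulVec_mulVec, ih, mulVec_smul, hry, smul_smul, pow_succ]
  have hm1 := hpow m
  rw [h, one_mulVec] at hm1
  by_cases hy0 : y = 0
  · have e1 : (ξ + 1) * q = 2 * c * (c * q) := by
      have : bl J u y = 0 := by
        rw [hy0]; unfold bl; rw [mulVec_zero, dotProduct_zero]
      rw [hy, bl_sub_right, bl_smul_right, bl_smul_right, hu, hcq] at this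
      linear_combination this
    have e2 : (ξ + 1) * (c * q) = 2 * c * q := by
      have : bl J v y = 0 := by
        rw [hy0]; unfold bl; rw [mulVec_zero, dotProduct_zero]
      rw [hy, bl_sub_right, bl_smul_right, bl_smul_right, hv, bl_comm hJ v u, hcq] at this
      linear_combination this
    have hξ2 : ξ ^ 2 = 1 := by
      by_cases hc0 : c = 0
      · have : ξ + 1 = 0 := by
          rw [hc0] at e1
          have h3 : (ξ + 1) * q = 0 := by linear_combination e1
          rcases mul_eq_zero.1 h3 with h4 | h4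
          · exact h4
          · exact absurd h4 hq
        have h5 : ξ = -1 := by linear_combination this
        rw [h5]
        norm_num
      · have h3 : (ξ - 1) * (c * q) = 0 := by linear_combination e2
        rcases mul_eq_zero.1 h3 with h4 | h4
        · have h5 : ξ = 1 := by linear_combination h4
          rw [h5]
          norm_num
        · exact absurd h4 (mul_ne_zero hc0 hq)
    rw [pow_mul, hξ2, one_pow]
  · have h3 : (ξ ^ m - 1) • y = 0 := by rw [sub_smul, one_smul, ← hm1, sub_self]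
    rcases smul_eq_zero.1 h3 with h4 | h4
    · have h5 : ξ ^ m = 1 := by linear_combination h4
      rw [mul_comm, pow_mul, h5, one_pow]
    · exact absurd h4 hy0

/-- Conjugates of a sum of a root of unity and its inverse. -/
lemma embed_bound {F : Type*} [Field F] (ι φ : F →+* ℂ) {t : F} {ξ ξ' : ℂ} (h1 : ξ * ξ' = 1)
    {M : ℕ} (hM : M ≠ 0) (hξ : ξ ^ M = 1) (ht : ι t = ξ + ξ') : ‖φ t‖ ≤ 2 := by
  have hξ' : ξ' ^ M = 1 := by
    have := congrArg (· ^ M) h1
    simp only [mul_pow, hξ, one_mul, one_pow] at this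
    exact this
  have e1 : (Polynomial.dickson 1 (1 : F) M).eval t = 2 := by
    apply ι.injective
    rw [← Polynomial.eval₂_at_apply, ← Polynomial.eval_map, Polynomial.map_dickson, map_one, ht,
      Polynomial.dickson_one_one_eval_add_inv _ _ h1, hξ, hξ', map_ofNat]
    norm_num
  have e2 : (Polynomial.dickson 1 (1 : ℂ) M).eval (φ t) = 2 := by
    have := congrArg φ e1
    rwa [← Polynomial.eval₂_at_apply, ← Polynomial.eval_map, Polynomial.map_dickson, map_one,
      map_ofNat] at this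
  obtain ⟨y, hy⟩ := exists_quad (φ t)
  have hy0 : y ≠ 0 := by
    rintro rfl
    norm_num at hy
  have hyt : φ t = y + y⁻¹ := by
    field_simp
    linear_combination -hy
  have hyy : y * y⁻¹ = 1 := mul_inv_cancel₀ hy0
  rw [hyt, Polynomial.dickson_one_one_eval_add_inv _ _ hyy] at e2
  have e3 : y ^ M * y⁻¹ ^ M = 1 := by rw [← mul_pow, hyy, one_pow]
  have e4 : (y ^ M - 1) ^ 2 = 0 := by
    linear_combination (y ^ M) * e2 - e3
  have e5 : y ^ M = 1 := by
    have := pow_eq_zero_iff (two_ne_zero) |>.1 e4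
    linear_combination this
  have e6 : ‖y‖ = 1 := Complex.norm_eq_one_of_pow_eq_one e5 hM
  rw [hyt]
  refine (norm_add_le _ _).trans ?_
  rw [norm_inv, e6]
  norm_num

lemma integral_root {ξ : ℂ} {M : ℕ} (hM : M ≠ 0) (hξ : ξ ^ M = 1) : IsIntegral ℤ ξ :=
  IsIntegral.of_pow (Nat.pos_of_ne_zero hM) (by rw [hξ]; exact isIntegral_one)

lemma integral_t {F : Type*} [Field F] (ι : F →+* ℂ) {t : F} {ξ ξ' : ℂ} (h1 : ξ * ξ' = 1)
    {M : ℕ} (hM : M ≠ 0) (hξ : ξ ^ M = 1) (ht : ι t = ξ + ξ') : IsIntegral ℤ t := by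
  have hξ' : ξ' ^ M = 1 := by
    have := congrArg (· ^ M) h1
    simp only [mul_pow, hξ, one_mul, one_pow] at this
    exact this
  have h2 : IsIntegral ℤ (ι t) := by
    rw [ht]
    exact (integral_root hM hξ).add (integral_root hM hξ')
  exact (isIntegral_algHom_iff ι.toIntAlgHom ι.injective).1 h2

end Pool.Agent.N558.HG
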