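import Pool.Agent.Y985.OR.CD

/-!
# Project HG, task INT: an invariant Hermitian form (helper558)
-/

set_option autoImplicit false

open Matrix

namespace Pool.Agent.N558.HG

open Pool.Agent.Y985.OR Pool.Agent.Y985.OR.CDaux

variable {n : ℕ} {J : Mat n}

/-- the Hermitian form averaged over `S` -/
noncomputable def hh (S : Finset (Mat n)) (u v : Fin n → ℂ) : ℂ :=
  ∑ g ∈ S, star (g *ᵥ u) ⬝ᵥ (g *ᵥ v)

variable {S : Finset (Mat n)}

lemma hh_add_right (u v w : Fin n → ℂ) : hh S u (v + w) = hh S u v + hh S u w := by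
  unfold hh
  rw [← Finset.sum_add_distrib]
  refine Finset.sum_congr rfl fun g _ => ?_
  rw [mulVec_add, dotProduct_add]

lemma hh_add_left (u v w : Fin n → ℂ) : hh S (u + v) w = hh S u w + hh S v w := by
  unfold hh
  rw [← Finset.sum_add_distrib]
  refine Finset.sum_congr rfl fun g _ => ?_
  rw [mulVec_add, star_add, add_dotProduct]

lemma hh_smul_right (c : ℂ) (u v : Fin n → ℂ) : hh S u (c • v) = c * hh S u v := by
  unfold hh
  rw [Finset.mul_sum]
  refine Finset.sum_congr rfl fun g _ => ?_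
  rw [mulVec_smul, dotProduct_smul, smul_eq_mul]

lemma hh_smul_left (c : ℂ) (u v : Fin n → ℂ) : hh S (c • u) v = star c * hh S u v := by
  unfold hh
  rw [Finset.mul_sum]
  refine Finset.sum_congr rfl fun g _ => ?_
  rw [mulVec_smul, star_smul, smul_dotProduct, smul_eq_mul]

lemma hh_sub_right (u v w : Fin n → ℂ) : hh S u (v - w) = hh S u v - hh S u w := by
  rw [sub_eq_add_neg, hh_add_right, ← neg_one_smul ℂ w, hh_smul_right]
  ring

lemma hh_zero_left (v : Fin n → ℂ) : hh S 0 v = 0 := by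
  have := hh_smul_left (S := S) 0 0 v
  rwa [zero_smul, star_zero, zero_mul] at this

lemma hh_zero_right (v : Fin n → ℂ) : hh S v 0 = 0 := by
  have := hh_smul_right (S := S) 0 v 0
  rwa [zero_smul, zero_mul] at this

lemma hh_sum_left {ι : Type*} (s : Finset ι) (f : ι → Fin n → ℂ) (v : Fin n → ℂ) :
    hh S (∑ j ∈ s, f j) v = ∑ j ∈ s, hh S (f j) v := by
  classical
  induction s using Finset.induction_on with
  | empty => rw [Finset.sum_empty, Finset.sum_empty, hh_zero_left]
  | insert a s ha ih => rw [Finset.sum_insert ha, Finset.sum_insert ha, hh_add_left, ih]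

lemma hh_sum_right {ι : Type*} (s : Finset ι) (f : ι → Fin n → ℂ) (v : Fin n → ℂ) :
    hh S v (∑ j ∈ s, f j) = ∑ j ∈ s, hh S v (f j) := by
  classical
  induction s using Finset.induction_on with
  | empty => rw [Finset.sum_empty, Finset.sum_empty, hh_zero_right]
  | insert a s ha ih => rw [Finset.sum_insert ha, Finset.sum_insert ha, hh_add_right, ih]

/-- the norm -/
noncomputable def hn (S : Finset (Mat n)) (u : Fin n → ℂ) : ℝ :=
  ∑ g ∈ S, ∑ i, Complex.normSq ((g *ᵥ u) i)

lemma hh_self (u : Fin n → ℂ) : hh S u u = (hn S u : ℂ) := by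
  unfold hh hn
  rw [Complex.ofReal_sum]
  refine Finset.sum_congr rfl fun g _ => ?_
  rw [Complex.ofReal_sum]
  refine Finset.sum_congr rfl fun i _ => ?_
  rw [Complex.normSq_eq_conj_mul_self]
  rfl

lemma hn_nonneg (u : Fin n → ℂ) : 0 ≤ hn S u :=
  Finset.sum_nonneg fun _ _ => Finset.sum_nonneg fun _ _ => Complex.normSq_nonneg _

lemma eq_zero_of_hn (h1 : (1 : Mat n) ∈ S) {u : Fin n → ℂ} (h : hn S u = 0) : u = 0 := by
  unfold hn at h
  rw [Finset.sum_eq_zero_iff_of_nonneg
    (fun _ _ => Finset.sum_nonneg fun _ _ => Complex.normSq_nonneg _)] at h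
  have h2 := h 1 h1
  rw [Finset.sum_eq_zero_iff_of_nonneg (fun _ _ => Complex.normSq_nonneg _)] at h2
  funext i
  have h3 := h2 i (Finset.mem_univ i)
  rw [one_mulVec] at h3
  exact Complex.normSq_eq_zero.1 h3

lemma hh_inv {R Ri : Mat n} (hR : ∀ g ∈ S, g * R ∈ S) (hRi : ∀ g ∈ S, g * Ri ∈ S)
    (h1 : R * Ri = 1) (h2 : Ri * R = 1) (u v : Fin n → ℂ) :
    hh S (R *ᵥ u) (R *ᵥ v) = hh S u v := by
  unfold hh
  refine Finset.sum_nbij' (fun g => g * R) (fun g => g * Ri) hR hRi ?_ ?_ ?_
  · intro g _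
    rw [mul_assoc, h1, mul_one]
  · intro g _
    rw [mul_assoc, h2, mul_one]
  · intro g _
    rw [mulVec_mulVec, mulVec_mulVec]

/-! ### Half angles -/

lemma exp_sub_exp (a t : ℝ) : Complex.exp (2 * Real.pi * Complex.I * a) -
    Complex.exp (2 * Real.pi * Complex.I * t) =
      Complex.exp (Real.pi * Complex.I * (a + t)) * (2 * Complex.I * (Real.sin (Real.pi * (a - t)) : ℂ)) := by
  rw [Complex.ofReal_sin]
  have h1 : 2 * Real.pi * Complex.I * a = Real.pi * Complex.I * (a + t) +
      ((Real.pi * (a - t) : ℝ) : ℂ) * Complex.I := by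
    push_cast
    ring
  have h2 : 2 * Real.pi * Complex.I * t = Real.pi * Complex.I * (a + t) -
      ((Real.pi * (a - t) : ℝ) : ℂ) * Complex.I := by
    push_cast
    ring
  rw [h1, h2, Complex.exp_add, sub_eq_add_neg _ (((Real.pi * (a - t) : ℝ) : ℂ) * Complex.I),
    Complex.exp_add, ← neg_mul, Complex.exp_mul_I, Complex.exp_mul_I, Complex.cos_neg,
    Complex.sin_neg]
  ring

/-- the sign of the product of the sines -/
lemma sin_mul_sin_pos {a y1 y2 : ℝ} (hy : y1 < y2)
    (h : ∀ k : ℤ, ¬ (y1 ≤ a + k ∧ a + k ≤ y2)) :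
    y2 - y1 < 1 ∧ 0 < Real.sin (Real.pi * (a - y1)) * Real.sin (Real.pi * (a - y2)) := by
  set k : ℤ := ⌈y1 - a⌉ with hk
  have h1 : y1 ≤ a + k := by
    have := Int.le_ceil (y1 - a)
    linarith
  have h2 : y2 < a + k := by
    by_contra hc
    exact h k ⟨h1, not_lt.1 hc⟩
  have h3 : a + k < y1 + 1 := by
    have := Int.ceil_lt_add_one (y1 - a)
    linarith
  refine ⟨by linarith, ?_⟩
  have e1 : Real.sin (Real.pi * (a - y1)) =
      (-1) ^ k * Real.sin (Real.pi * (a + k - y1)) := by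
    rw [show Real.pi * (a + k - y1) = Real.pi * (a - y1) + k * Real.pi by ring,
      Real.sin_add_int_mul_pi, ← mul_assoc, ← mul_zpow]
    norm_num
  have e2 : Real.sin (Real.pi * (a - y2)) =
      (-1) ^ k * Real.sin (Real.pi * (a + k - y2)) := by
    rw [show Real.pi * (a + k - y2) = Real.pi * (a - y2) + k * Real.pi by ring,
      Real.sin_add_int_mul_pi, ← mul_assoc, ← mul_zpow]
    norm_num
  have hs1 : 0 < Real.sin (Real.pi * (a + k - y1)) := by
    apply Real.sin_pos_of_pos_of_lt_pi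
    · have : 0 < a + k - y1 := by linarith
      positivity
    · have : a + k - y1 < 1 := by linarith
      nlinarith [Real.pi_pos]
  have hs2 : 0 < Real.sin (Real.pi * (a + k - y2)) := by
    apply Real.sin_pos_of_pos_of_lt_pi
    · have : 0 < a + k - y2 := by linarith
      positivity
    · have : a + k - y2 < 1 := by linarith
      nlinarith [Real.pi_pos]
  rw [e1, e2]
  have h4 : ((-1 : ℝ) ^ k) * (-1) ^ k = 1 := by
    rw [← mul_zpow]
    norm_num
  calc (0 : ℝ) < Real.sin (Real.pi * (a + k - y1)) * Real.sin (Real.pi * (a + k - y2)) :=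
        mul_pos hs1 hs2
    _ = (((-1 : ℝ) ^ k) * (-1) ^ k) * (Real.sin (Real.pi * (a + k - y1)) *
        Real.sin (Real.pi * (a + k - y2))) := by rw [h4, one_mul]
    _ = _ := by ring

end Pool.Agent.N558.HG
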